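import Pool.Agent.V7H43.GU.Gen
import Pool.Agent.V7H76.MW.Gen

/-!
The condition at a point, with the transcendence degrees, and its relation to the condition for
closed sets.
-/

set_option autoImplicit false

open MvPolynomial Pool.Agent.TH145.GH Pool.Agent.TH145.MG
open Pool.Agent.W602.GT
open Pool.Agent.V7H76.MP

namespace Pool.Agent.V7H43.GU

/-- The values `y a` with indices in `J` are algebraic over the field generated over `k` by the
coordinates `x` and by the other values. -/
def AlgOver {n : ℕ} {A : Type} (k : Type) [Field k] {Ω : Type} [Field Ω] [Algebra k Ω]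
    (x : Fin (n + 1) → Ω) (y : A → Ω) (J : Finset A) : Prop :=
  ∀ a ∈ J, IsAlgebraic (IntermediateField.adjoin k (Set.range x ∪ y '' {b | b ∉ J})) (y a)

/-- The sum of the dimension of the closure over `k` of the normalised point `x`, and of the
dimension of its image in the block `i`. -/
noncomputable def dim2 {n : ℕ} {ι : Type} (g : Fin (n + 1) → ι) (k : Type) [Field k] {Ω : Type}
    [Field Ω] [Algebra k Ω] (x : Fin (n + 1) → Ω) (i : ι) : Cardinal :=
  Algebra.trdeg k (IntermediateField.adjoin k (Set.range x)) +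
    Algebra.trdeg k (IntermediateField.adjoin k (x '' {s | g s = i}))

/-- The bound for the sets `J` of values that are algebraic over the other values. -/
def Bound {n : ℕ} {ι A : Type} (g : Fin (n + 1) → ι) (d : A → ι → ℕ) (k : Type) [Field k] {Ω : Type}
    [Field Ω] [Algebra k Ω] (N : ι → ℕ) (w : ℕ) (x : Fin (n + 1) → Ω) (y : A → Ω) : Prop :=
  ∀ J : Finset A, AlgOver k x y J →
    ∃ i, ((∑ a ∈ J, (d a i + 1) + w : ℕ) : Cardinal) < dim2 g k x i + (N i : Cardinal)

/-- The values `y a` are algebraically independent over the field generated over `k` by the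
coordinates `x`. -/
def IndOver {n : ℕ} {A : Type} (k : Type) [Field k] {Ω : Type} [Field Ω] [Algebra k Ω]
    (x : Fin (n + 1) → Ω) (y : A → Ω) : Prop :=
  AlgebraicIndependent (IntermediateField.adjoin k (Set.range x)) y

/-- The fibres of the closed set `W` over the points `x` have codimension at least `c` in the affine
space of the tuples `z`. -/
def FibCodim {n : ℕ} {ι A : Type} [Fintype A] (g : Fin (n + 1) → ι) (k : Type) [Field k]
    (W : Set (MvPolynomial (Fin (n + 1) ⊕ A) k)) (c : ℕ) : Prop :=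
  ∀ (Ω : Type) [Field Ω] [Algebra k Ω] (x : Fin (n + 1) → Ω) (z : A → Ω),
    (∀ i, ∃ s, g s = i ∧ x s = 1) → (∀ G ∈ W, aeval (Sum.elim x z) G = 0) →
    Algebra.trdeg (IntermediateField.adjoin k (Set.range x))
      (IntermediateField.adjoin (IntermediateField.adjoin k (Set.range x)) (Set.range z)) + c ≤
        (Fintype.card A : Cardinal)

/-- The forms `F a` are multihomogeneous of multidegree `d a`, and all their coefficients together
are algebraically independent over `k`. -/
def Generic {n : ℕ} {ι A : Type} [DecidableEq ι] (g : Fin (n + 1) → ι) (d : A → ι → ℕ) (k : Type)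
    [Field k] {K : Type} [Field K] [Algebra k K] (F : A → MvPolynomial (Fin (n + 1)) K) : Prop :=
  (∀ a, MH g (F a) (d a)) ∧ AlgebraicIndependent k
    fun p : (a : A) × {I : Fin (n + 1) →₀ ℕ // mdeg g I = d a} => (F p.1).coeff p.2.1

/-- The condition in the form that was used. -/
theorem ptCond {k : Type} [Field k] {Ω : Type} [Field Ω] [Algebra k Ω] {n : ℕ} {ι A : Type}
    {g : Fin (n + 1) → ι} {d : A → ι → ℕ} {c : ι → ℕ} {w : ℕ} {x : Fin (n + 1) → Ω} {y : A → Ω}
    {J : Finset A} (hJ : AlgOver k x y J)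
    (hd : ∀ i, dim2 g k x i + c i ≤ ((∑ a ∈ J, (d a i + 1) + w : ℕ) : Cardinal)) :
    PtCond g k d c w x y := by
  have h1 : Algebra.trdeg k (IntermediateField.adjoin k (Set.range x)) < Cardinal.aleph0 :=
    ((self_le_add_right _ _).trans ((self_le_add_right _ _).trans (hd (g 0)))).trans_lt
      (Cardinal.natCast_lt_aleph0)
  have h2 : ∀ i, Algebra.trdeg k (IntermediateField.adjoin k (x '' {s | g s = i})) <
      Cardinal.aleph0 := fun i =>
    ((self_le_add_left _ _).trans ((self_le_add_right _ _).trans (hd i))).trans_lt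
      (Cardinal.natCast_lt_aleph0)
  obtain ⟨m, hm⟩ := Cardinal.lt_aleph0.1 h1
  choose μ hμ using fun i => Cardinal.lt_aleph0.1 (h2 i)
  refine ⟨m, μ, J, hm.le, fun i => (hμ i).le, hJ, fun i => ?_⟩
  have h3 := hd i
  unfold dim2 at h3
  rw [hm, hμ i] at h3
  exact_mod_cast h3

/-- A maximal set of algebraically independent values. -/
theorem exists_indep_compl {k K : Type} [Field k] [Field K] [Algebra k K] {A : Type} [Fintype A]
    (y : A → K) :
    ∃ J : Finset A, (AlgebraicIndependent k fun a : {a // a ∉ J} => y a) ∧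
      ∀ a, IsAlgebraic (IntermediateField.adjoin k (y '' {b | b ∉ J})) (y a) := by
  classical
  obtain ⟨B, hB⟩ := (AlgebraicIndependent.matroid k K).exists_isBasis (Set.range y)
  have hBi : AlgebraicIndependent k ((↑) : B → K) := hB.indep
  have hBx : B ⊆ Set.range y := hB.subset
  have hBfin : B.Finite := (Set.finite_range y).subset hBx
  have hcl : ∀ i, y i ∈ (AlgebraicIndependent.matroid k K).closure B := fun i =>
    hB.subset_closure ⟨i, rfl⟩
  have := hBfin.fintype
  choose f hf using fun b : B => hBx b.2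
  have h0 : ∀ a, a ∉ (Finset.univ.image f)ᶜ ↔ ∃ b, f b = a := fun a => by
    rw [Finset.mem_compl, not_not, Finset.mem_image]
    simp
  refine ⟨(Finset.univ.image f)ᶜ, ?_, fun i => ?_⟩
  · choose h h' using fun a : {a // a ∉ (Finset.univ.image f)ᶜ} => (h0 a.1).1 a.2
    have h1 : (fun a : {a // a ∉ (Finset.univ.image f)ᶜ} => y a) = ((↑) : B → K) ∘ h := by
      funext a
      rw [Function.comp_apply, ← hf (h a), h' a]
    rw [h1]
    refine hBi.comp h fun a b hab => Subtype.ext ?_
    rw [← h' a, ← h' b, hab]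
  · have h1 : y '' {b | b ∉ (Finset.univ.image f)ᶜ} = B := by
      ext z
      constructor
      · rintro ⟨i, hi, rfl⟩
        obtain ⟨b, rfl⟩ := (h0 i).1 hi
        rw [hf b]
        exact b.2
      · intro hz
        exact ⟨f ⟨z, hz⟩, (h0 _).2 ⟨_, rfl⟩, hf ⟨z, hz⟩⟩
    rw [h1, ← mem_cl, mem_cl_iff]
    exact hcl i

/-- Algebraic over the other values. -/
theorem exists_algOver {k : Type} [Field k] {Ω : Type} [Field Ω] [Algebra k Ω] {n : ℕ} {A : Type}
    [Fintype A] (x : Fin (n + 1) → Ω) (y : A → Ω) :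
    ∃ J : Finset A, (AlgebraicIndependent (IntermediateField.adjoin k (Set.range x))
      fun a : {a // a ∉ J} => y a) ∧ AlgOver k x y J := by
  obtain ⟨J, hJ, h⟩ := exists_indep_compl (k := IntermediateField.adjoin k (Set.range x)) y
  refine ⟨J, hJ, fun a _ => ?_⟩
  refine Pool.Agent.TH145.MF.alg_mono (F1 := (IntermediateField.adjoin
    (IntermediateField.adjoin k (Set.range x)) (y '' {b | b ∉ J})).toSubfield)
    (F2 := (IntermediateField.adjoin k (Set.range x ∪ y '' {b | b ∉ J})).toSubfield) ?_ (h a)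
  intro z hz
  have h2 : z ∈ (IntermediateField.adjoin (IntermediateField.adjoin k (Set.range x))
    (y '' {b | b ∉ J})).restrictScalars k := hz
  rw [IntermediateField.adjoin_adjoin_left] at h2
  exact h2

/-- Independence of the values. -/
theorem indep_of {k : Type} [Field k] {Ω : Type} [Field Ω] [Algebra k Ω] {n : ℕ} {ι A : Type}
    [Fintype A] {g : Fin (n + 1) → ι} {d : A → ι → ℕ} {c : ι → ℕ} {w : ℕ} {x : Fin (n + 1) → Ω}
    {y : A → Ω}
    (hd : ∀ a i, dim2 g k x i + c i ≤ ((d a i + 1 + w : ℕ) : Cardinal))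
    (h : Bound g d k c w x y) : IndOver k x y := by
  obtain ⟨J, hJ, hJ'⟩ := exists_algOver (k := k) x y
  rcases J.eq_empty_or_nonempty with rfl | ⟨a, ha⟩
  · have h1 := hJ.comp (fun a : A => (⟨a, Finset.notMem_empty a⟩ : {a // a ∉ (∅ : Finset A)}))
      fun a b hab => congrArg Subtype.val hab
    exact h1
  · exfalso
    obtain ⟨i, hi⟩ := h J hJ'
    have h2 := hi.trans_le (hd a i)
    have h3 := Nat.cast_lt.1 h2
    have h4 : d a i + 1 ≤ ∑ a ∈ J, (d a i + 1) :=
      Finset.single_le_sum (f := fun a => d a i + 1) (fun _ _ => Nat.zero_le _) ha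
    omega

/-- The condition for closed sets implies the condition at the points. -/
theorem of_cond {k : Type} [Field k] {Ω : Type} [Field Ω] [Algebra k Ω] {n : ℕ} {ι A : Type}
    [Fintype A] {g : Fin (n + 1) → ι} {d : A → ι → ℕ} {c : ι → ℕ} {w : ℕ} {x : Fin (n + 1) → Ω}
    {y : A → Ω} {W : Set (MvPolynomial (Fin (n + 1) ⊕ A) k)}
    (hW : Pool.Agent.V7H76.MW.Cond g d k W c w) (hx : ∀ i, ∃ s, g s = i ∧ x s = 1)
    (hxy : ∀ G ∈ W, aeval (Sum.elim x y) G = 0) (h : Bound g d k c w x y) : False := by
  obtain ⟨J, hJ, hJ'⟩ := exists_algOver (k := k) x y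
  obtain ⟨i, hi⟩ := h J hJ'
  exact absurd (hW Ω x y hx hxy J hJ i) (not_le.2 hi)

end Pool.Agent.V7H43.GU
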