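import Pool.Agent.V7H43.GU.Limit

/-!
Finiteness of the points over a finitely generated field.
-/

set_option autoImplicit false

open MvPolynomial Pool.Agent.TH145.GH Pool.Agent.V7H76.MP

namespace Pool.Agent.V7H43.GU

/-- The condition at a point `x`, with `y` the values of the forms at `x`. Let the closure of the
point `x` over `k` have dimension at most `m`, with an image of dimension at most `μ i` in the block
`i`, and let the values with indices in `J` be algebraic over the field generated by the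
coordinates of `x` and by the other values. -/
def PtCond {n : ℕ} {ι A : Type} (g : Fin (n + 1) → ι) (k : Type) [Field k] {Ω : Type} [Field Ω]
    [Algebra k Ω] (d : A → ι → ℕ) (c : ι → ℕ) (w : ℕ) (x : Fin (n + 1) → Ω) (y : A → Ω) : Prop :=
  ∃ (m : ℕ) (μ : ι → ℕ) (J : Finset A),
    Algebra.trdeg k (IntermediateField.adjoin k (Set.range x)) ≤ m ∧
    (∀ i, Algebra.trdeg k (IntermediateField.adjoin k (x '' {s | g s = i})) ≤ μ i) ∧
    (∀ a ∈ J, IsAlgebraic (IntermediateField.adjoin k (Set.range x ∪ y '' {b | b ∉ J})) (y a)) ∧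
    ∀ i, m + μ i + c i ≤ ∑ a ∈ J, (d a i + 1) + w

section transfer

variable {k K1 K : Type} [Field k] [Field K1] [Field K] [Algebra k K1] [Algebra k K]
  (f : K1 →ₐ[k] K)

/-- The transcendence degree of a field and of its image. -/
theorem trdeg_image (S : Set K1) :
    Algebra.trdeg k (IntermediateField.adjoin k S) ≤
      Algebra.trdeg k (IntermediateField.adjoin k (f '' S)) := by
  have h1 : ∀ z ∈ IntermediateField.adjoin k S, f z ∈ IntermediateField.adjoin k (f '' S) := by
    intro z hz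
    rw [← IntermediateField.adjoin_map]
    exact ⟨z, hz, rfl⟩
  obtain ⟨ψ, hψ⟩ : ∃ ψ : IntermediateField.adjoin k S →ₐ[k]
      IntermediateField.adjoin k (f '' S), ∀ z, ((ψ z : IntermediateField.adjoin k (f '' S)) : K)
        = f z :=
    ⟨(f.comp (IntermediateField.adjoin k S).val).codRestrict
      (IntermediateField.adjoin k (f '' S)).toSubalgebra fun z => h1 z z.2, fun _ => rfl⟩
  exact trdeg_le_of_injective ψ ψ.toRingHom.injective

/-- Algebraic elements and their images. -/
theorem alg_image {S : Set K1} {z : K1}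
    (h : IsAlgebraic (IntermediateField.adjoin k (f '' S)) (f z)) :
    IsAlgebraic (IntermediateField.adjoin k S) z := by
  obtain ⟨p, hp0, hp⟩ := h
  have h1 : ∀ z ∈ IntermediateField.adjoin k S, f z ∈ IntermediateField.adjoin k (f '' S) := by
    intro z hz
    rw [← IntermediateField.adjoin_map]
    exact ⟨z, hz, rfl⟩
  obtain ⟨ψ, hψ⟩ : ∃ ψ : IntermediateField.adjoin k S →+*
      IntermediateField.adjoin k (f '' S), ∀ z, ((ψ z : IntermediateField.adjoin k (f '' S)) : K)
        = f z :=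
    ⟨((f.comp (IntermediateField.adjoin k S).val).codRestrict
      (IntermediateField.adjoin k (f '' S)).toSubalgebra fun z => h1 z z.2).toRingHom,
      fun _ => rfl⟩
  have hsurj : Function.Surjective ψ := by
    rintro ⟨w, hw⟩
    rw [← IntermediateField.adjoin_map] at hw
    obtain ⟨z, hz, rfl⟩ := hw
    exact ⟨⟨z, hz⟩, Subtype.ext (hψ _)⟩
  obtain ⟨q, rfl⟩ := Polynomial.map_surjective ψ hsurj p
  refine ⟨q, fun h0 => hp0 (by rw [h0, Polynomial.map_zero]), ?_⟩
  apply f.toRingHom.injective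
  have h2 : f.toRingHom (Polynomial.aeval z q) = Polynomial.aeval (f z) (q.map ψ) := by
    rw [Polynomial.aeval_def, Polynomial.aeval_def, Polynomial.eval₂_map, Polynomial.hom_eval₂]
    congr 1
    ext r
    exact (hψ r).symm
  rw [h2, hp, map_zero]

end transfer

/-- Finiteness of the points, for one normalisation. -/
theorem fin_l0 {k0 K : Type} [Field k0] [Field K] [Algebra k0 K] [IsAlgClosed K]
    [CharZero K] [IsAlgClosed k0] {n : ℕ} {A ι : Type} [DecidableEq ι] [Fintype ι]
    {g : Fin (n + 1) → ι} [Fintype A] {dg : A → ι → ℕ}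
    {F : A → MvPolynomial (Fin (n + 1)) K} (hF : ∀ a, MH g (F a) (dg a))
    (hind : AlgebraicIndependent k0 fun p : Cf g dg => (F p.1).coeff p.2.1)
    (T : Finset K) {l0 : ι → Fin (n + 1)} (hg0 : ∀ i, g (l0 i) = i) :
    {x : Fin (n + 1) → K | (∀ j, x j ∈ IntermediateField.adjoin k0 (T : Set K)) ∧
      (∀ i, x (l0 i) = 1) ∧
      PtCond g k0 dg (fun _ => 2) 0 x fun a => eval x (F a)}.Finite := by
  classical
  obtain ⟨B, hB, K1, y, E, F1, DE, D, hK1, hc, hy, h1, h2, h3, h4, h5, h6, h7, h8⟩ :=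
    exists_all hF hind T
  have : Finite B := hB
  obtain ⟨N, hN⟩ : ∃ N : ι → ℕ, ∀ i, N i = ∑ a, (dg a i + 1) := ⟨_, fun _ => rfl⟩
  have h9 : ∀ p : Fin (N (g 0) + 1) × ((i : ι) → Fin (N i + 1)) × Finset A,
      {e : Fin (n + 1) → K1 | (∀ j, e j ∈ E) ∧ (∀ i, e (l0 i) = 1) ∧
        (∀ i, (p.1 : ℕ) + (p.2.1 i : ℕ) + 2 ≤ ∑ a ∈ p.2.2, (dg a i + 1)) ∧
        Pd g dg D e (fun a => eval e (map E.toSubfield.subtype (F1 a))) (p.1 : ℕ)
          (fun i => (p.2.1 i : ℕ)) p.2.2}.Finite := by
    intro p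
    by_cases hd : ∀ i, (p.1 : ℕ) + (p.2.1 i : ℕ) + 2 ≤ ∑ a ∈ p.2.2, (dg a i + 1)
    · refine (fin_fixed E hy h3 D h4 h5 h6 (m := (p.1 : ℕ)) (μ := fun i => (p.2.1 i : ℕ)) hd
        hg0).subset ?_
      rintro e ⟨he, hel, -, hP⟩
      exact ⟨he, hel, hP⟩
    · refine Set.finite_empty.subset ?_
      rintro e ⟨-, -, hd', -⟩
      exact hd hd'
  refine ((Set.finite_iUnion h9).image fun e j => (e j : K)).subset ?_
  rintro x ⟨hx, hxl, m, μ, J, hm, hμ, hJ, hd⟩
  choose e he hex using fun j => h8 (x j) (hx j)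
  have hex' : (fun j => algebraMap K1 K (e j)) = x := funext hex
  have hev : ∀ a, algebraMap K1 K (eval e (map E.toSubfield.subtype (F1 a))) =
      eval x (F a) := by
    intro a
    rw [← h7, eval_map, eval_map]
    have h10 := hom_eval₂ (F1 a) E.toSubfield.subtype (algebraMap K1 K) e
    rw [h10, hex']
  have hst : IsScalarTower k0 K1 K := IsScalarTower.of_algebraMap_eq fun _ => rfl
  obtain ⟨f, hf⟩ : ∃ f : K1 →ₐ[k0] K, ∀ z, f z = algebraMap K1 K z :=
    ⟨IsScalarTower.toAlgHom k0 K1 K, fun _ => rfl⟩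
  have hel : ∀ i, e (l0 i) = 1 := fun i => by
    apply Subtype.ext
    rw [hex, hxl]
    rfl
  have hfx : ∀ S : Set (Fin (n + 1)), f '' (e '' S) = x '' S := by
    intro S
    rw [← Set.image_comp]
    refine Set.image_congr fun j _ => ?_
    rw [Function.comp_apply, hf]
    exact hex j
  have hfy : ∀ S : Set A, f '' ((fun a => eval e (map E.toSubfield.subtype (F1 a))) '' S) =
      (fun a => eval x (F a)) '' S := by
    intro S
    rw [← Set.image_comp]
    refine Set.image_congr fun a _ => ?_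
    rw [Function.comp_apply, hf]
    exact hev a
  have hle : ∀ i, ∑ a ∈ J, (dg a i + 1) ≤ N i := fun i => by
    rw [hN]
    exact Finset.sum_le_sum_of_subset (Finset.subset_univ J)
  have hmN : m < N (g 0) + 1 := by
    have h10 := hd (g 0)
    have h11 := hle (g 0)
    omega
  have hμN : ∀ i, μ i < N i + 1 := fun i => by
    have h10 := hd i
    have h11 := hle i
    omega
  refine ⟨e, Set.mem_iUnion.2 ⟨(⟨m, hmN⟩, fun i => ⟨μ i, hμN i⟩, J), he, hel,
    fun i => hd i, ?_⟩, funext hex⟩
  refine Pd.of_alg (k0 := k0) h5 hg0 hel ?_ (fun i => ?_) fun a ha => ?_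
  · refine (trdeg_image f _).trans ?_
    rw [← Set.image_univ, hfx, Set.image_univ]
    exact hm
  · refine (trdeg_image f _).trans ?_
    rw [hfx]
    exact hμ i
  · refine alg_image f ?_
    rw [Set.image_union, ← Set.image_univ, hfx, Set.image_univ, hfy]
    have h10 := hJ a ha
    have h11 : f (eval e (map E.toSubfield.subtype (F1 a))) = eval x (F a) := by
      rw [hf]
      exact hev a
    rw [h11]
    exact h10

/-- Finiteness of the points. -/
theorem fin_U {k K : Type} [Field k] [Field K] [IsAlgClosed K] [CharZero K] [Algebra k K]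
    {n : ℕ} {A ι : Type} [DecidableEq ι] [Fintype ι] {g : Fin (n + 1) → ι} [Fintype A]
    {dg : A → ι → ℕ} {F : A → MvPolynomial (Fin (n + 1)) K} (hF : ∀ a, MH g (F a) (dg a))
    (hind : AlgebraicIndependent k fun p : Cf g dg => (F p.1).coeff p.2.1) (T : Finset K) :
    {x : Fin (n + 1) → K |
      (∀ j, x j ∈ IntermediateField.adjoin (algebraicClosure k K) (T : Set K)) ∧
      (∀ i, ∃ s, g s = i ∧ x s = 1) ∧
      PtCond g (algebraicClosure k K) dg (fun _ => 2) 0 x fun a => eval x (F a)}.Finite := by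
  have hac : IsAlgClosed (algebraicClosure k K) := (algebraicClosure.isAlgClosure k K).isAlgClosed
  have h1 : ∀ l0 : {l0 : ι → Fin (n + 1) // ∀ i, g (l0 i) = i}, _ := fun l0 =>
    fin_l0 hF hind.algebraicClosure T l0.2
  refine (Set.finite_iUnion h1).subset ?_
  rintro x ⟨hx, hx0, hP⟩
  choose l0 hg0 hl0 using hx0
  exact Set.mem_iUnion.2 ⟨⟨l0, hg0⟩, hx, hl0, hP⟩

end Pool.Agent.V7H43.GU
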