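import Pool.Agent.V7H43.GU.Pd
import Pool.Agent.V7H76.MP.Setup

/-!
Limits of sequences of points are constant.
-/

set_option autoImplicit false

open MvPolynomial FF Pool.Agent.W603.LV Pool.Agent.W603.PV Pool.Agent.W602.RG
open Pool.Agent.TH145.GH Pool.Agent.V7H76.MP

namespace Pool.Agent.V7H43.GU

section limit

variable {k0 K : Type} [Field k0] [Field K] [Algebra k0 K] [IsAlgClosed k0] [IsAlgClosed K]
  [CharZero K]

/-- The data over a function field in the ultrapower. -/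
theorem exists_rig_dataU {n : ℕ} {A ι : Type} [DecidableEq ι] {g : Fin (n + 1) → ι}
    {dg : A → ι → ℕ} (E : Subfield K)
    (hE : ∀ r : k0, algebraMap k0 K r ∈ E)
    {F : A → MvPolynomial (Fin (n + 1)) E} {DE : A → (Fin (n + 1) →₀ ℕ) → E → E}
    (hG : Gen g F dg DE)
    (D : A → (Fin (n + 1) →₀ ℕ) → Derivation ℤ K K)
    (hDE : ∀ a I (x : E), D a I x = (DE a I x : K))
    (hDk : ∀ a I (r : k0), D a I (algebraMap k0 K r) = 0) {J : Type} [Finite J]
    (z : J → Om K) (hz : ∀ j, z j ∈ OE k0 (E : Set K))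
    (j1 : J) (hj1 : z j1 ∉ acl (cst K '' (E : Set K))) :
    ∃ (κ : Subfield (Om K)) (Λ : IntermediateField κ (Om K)) (φ : E →+* Λ)
      (D' : A → (Fin (n + 1) →₀ ℕ) → Derivation ℤ Λ Λ),
      IsAlgClosed κ ∧ IsFF κ Λ ∧ (∀ j, z j ∈ Λ) ∧ z j1 ∉ κ ∧
      (∀ x : E, ((φ x : Λ) : Om K) = cst K x) ∧
      Data κ g (fun a => map φ (F a)) dg D' (fun _ => 0) ∧
      ∀ a I (x : Λ), ((D' a I x : Λ) : Om K) = hat (D a I) x := by
  classical
  obtain ⟨κ, Λ, M, hac, hFF, hEκ, hzΛ, hzκ, hXM, hMC, hder, hplace⟩ :=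
    exists_rig E hE z hz ∅ (by simp) j1 hj1
  have hczOm : CharZero (Om K) :=
    charZero_of_injective_algebraMap (algebraMap K (Om K)).injective
  have hcz : CharZero κ := charZero_of_injective_algebraMap (algebraMap ℚ κ).injective
  let φ : E →+* Λ :=
    { toFun := fun x => ⟨cst K x, Λ.algebraMap_mem ⟨cst K x, hEκ x x.2⟩⟩
      map_one' := Subtype.ext (map_one (cst K))
      map_mul' := fun a b => Subtype.ext (map_mul (cst K) (a : K) b)
      map_zero' := Subtype.ext (map_zero (cst K))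
      map_add' := fun a b => Subtype.ext (map_add (cst K) (a : K) b) }
  have hd := fun a I => hder (hat (D a I)) (fun w hw => hat_CC (D a I) (hDk a I) hw)
    (fun x hx => ⟨(DE a I ⟨x, hx⟩ : K), (DE a I ⟨x, hx⟩).2, by
      rw [hat_cst, ← hDE a I ⟨x, hx⟩]⟩)
  let D' : A → (Fin (n + 1) →₀ ℕ) → Derivation ℤ Λ Λ := fun a I =>
    resDer Λ (hat (D a I)) (hd a I).2
  have hD' : ∀ a I (x : Λ), ((D' a I x : Λ) : Om K) = hat (D a I) x := fun a I x => rfl
  have hS : ∀ a I, Sem κ (D' a I) := fun a I c => ⟨⟨hat (D a I) c, (hd a I).1 c c.2⟩, rfl⟩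
  have hM0 : ∀ a I, ∀ m ∈ M, D' a I m = 0 := by
    intro a I m hm
    apply Subtype.ext
    rw [hD']
    exact hat_CC (D a I) (hDk a I) (hMC m hm)
  refine ⟨κ, Λ, φ, D', hac, hFF, hzΛ, hzκ, fun x => rfl, ?_, hD'⟩
  refine hG.data φ D' (fun a I x => ?_) (fun _ => le_rfl) ?_ ?_
  · apply Subtype.ext
    rw [hD']
    change hat (D a I) (cst K x) = cst K (DE a I x)
    rw [hat_cst, hDE]
  · intro P f hf a I _
    rw [neg_zero]
    rcases hplace P with ⟨-, θ, hθM, c, hu⟩ | ⟨π, hπM, hπ⟩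
    · refine reg_of_unif P hu (hS a I) le_rfl ?_ hf
      obtain ⟨c', hc'⟩ := hS a I c
      rw [map_sub, hM0 a I θ hθM, hc', zero_sub]
      exact (Ge.const c').neg
    · refine reg_of_unif P hπ (hS a I) le_rfl ?_ hf
      rw [hM0 a I π hπM]
      exact Ge.zero
  · simp

/-- Limit points are constant. -/
theorem limitU {n m : ℕ} {A ι : Type} [DecidableEq ι] [Fintype ι] {g : Fin (n + 1) → ι}
    {μ : ι → ℕ} [Fintype A] {dg : A → ι → ℕ} {J : Finset A} (E : Subfield K)
    (hE : ∀ r : k0, algebraMap k0 K r ∈ E)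
    {F : A → MvPolynomial (Fin (n + 1)) E} {DE : A → (Fin (n + 1) →₀ ℕ) → E → E}
    (hG : Gen g F dg DE)
    (D : A → (Fin (n + 1) →₀ ℕ) → Derivation ℤ K K)
    (hDE : ∀ a I (x : E), D a I x = (DE a I x : K))
    (hDk : ∀ a I (r : k0), D a I (algebraMap k0 K r) = 0)
    (hd : ∀ i, m + μ i + 2 ≤ ∑ a ∈ J, (dg a i + 1))
    (xs : ℕ → Fin (n + 1) → K)
    (hxs : ∀ q, Pd g dg D (xs q) (fun a => eval (xs q) (map E.subtype (F a))) m μ J)
    (hz : ∀ j, (Om.mk fun q => xs q j) ∈ OE k0 (E : Set K)) {l0 : ι → Fin (n + 1)}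
    (hg0 : ∀ i, g (l0 i) = i) (hl0 : ∀ q i, xs q (l0 i) = 1)
    (j : Fin (n + 1)) : (Om.mk fun q => xs q j) ∈ acl (cst K '' (E : Set K)) := by
  classical
  by_contra hj1
  obtain ⟨κ, Λ, φ, D', hac, hFF, hzΛ, hzκ, hφ, hdat, hD'⟩ :=
    exists_rig_dataU E hE hG D hDE hDk (fun j => Om.mk fun q => xs q j) hz j hj1
  have hczOm : CharZero (Om K) :=
    charZero_of_injective_algebraMap (algebraMap K (Om K)).injective
  have hcz : CharZero κ := charZero_of_injective_algebraMap (algebraMap ℚ κ).injective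
  have hczΛ : CharZero Λ := charZero_of_injective_algebraMap (algebraMap κ Λ).injective
  obtain ⟨x, hx⟩ : ∃ x : Fin (n + 1) → Λ, ∀ j, x j = ⟨Om.mk fun q => xs q j, hzΛ j⟩ :=
    ⟨_, fun _ => rfl⟩
  have hxz : (fun j => ((x j : Λ) : Om K)) = fun j => Om.mk fun q => xs q j := by
    funext j
    rw [hx]
  have hxl0 : ∀ i, x (l0 i) = 1 := by
    intro i
    rw [hx]
    apply Subtype.ext
    change (Om.mk fun q => xs q (l0 i)) = 1
    have h1 : (fun q => xs q (l0 i)) = fun _ => 1 := funext fun q => hl0 q i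
    rw [h1]
    rfl
  have hy : (fun a => ((eval x (map φ (F a)) : Λ) : Om K)) =
      fun a => Om.mk fun q => eval (xs q) (map E.subtype (F a)) := by
    funext a
    rw [← eval_mk (F a) xs]
    refine (eval_lift φ hφ (F a) x).trans ?_
    rw [hxz]
  have hpd : Pd g dg D' x (fun a => eval x (map φ (F a))) m μ J := by
    have h1 := Pd.om hxs
    rw [← hxz, ← hy] at h1
    exact Pd.descend (L' := Om K) (fun a I f => hD' a I f) h1
  have h1 := hpd.ineq hdat hd hg0 hxl0 (g j)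
  simp only [mul_zero, finsum_zero] at h1
  have hb : ∀ s, g s = g j → bl g (g j) x s = x s := fun s hs => by
    unfold bl
    rw [if_pos hs]
  obtain ⟨c, hc⟩ := const_of_pht h1 (by rw [hb _ (hg0 (g j))]; exact hxl0 _) j
  apply hzκ
  rw [hb j rfl] at hc
  have h2 := congrArg (fun w : Λ => (w : Om K)) hc
  rw [hx] at h2
  change (Om.mk fun q => xs q j) = (c : Om K) at h2
  rw [h2]
  exact c.2

end limit

section fin

variable {k0 K η : Type} [Field k0] [Field K] [Algebra k0 K] [IsAlgClosed K] [CharZero K]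
  {y : η → K} (E : IntermediateField (IntermediateField.adjoin k0 (Set.range y)) K)

/-- The heights of the points are bounded. -/
theorem heightsU {n : ℕ} {A ι : Type} [DecidableEq ι] [Fintype ι]
    {g : Fin (n + 1) → ι}
    [Fintype A] {dg : A → ι → ℕ} (hy : AlgebraicIndependent k0 y)
    [FiniteDimensional (IntermediateField.adjoin k0 (Set.range y)) E]
    {F : A → MvPolynomial (Fin (n + 1)) E.toSubfield}
    {DE : A → (Fin (n + 1) →₀ ℕ) → E.toSubfield → E.toSubfield}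
    (hG : Gen g F dg DE)
    (D : A → (Fin (n + 1) →₀ ℕ) → Derivation ℤ K K)
    (hDE : ∀ a I (x : E.toSubfield), D a I x = (DE a I x : K))
    (hDk : ∀ a I (r : k0), D a I (algebraMap k0 K r) = 0)
    (hDy : ∀ a I j, ∃ r : k0, D a I (y j) = algebraMap k0 K r)
    {l0 : ι → Fin (n + 1)} (hg0 : ∀ i, g (l0 i) = i) (i : η) :
    ∃ B : ℤ, ∀ (x : Fin (n + 1) → E) (m : ℕ) (μ : ι → ℕ) (J : Finset A),
      (∀ i, m + μ i + 2 ≤ ∑ a ∈ J, (dg a i + 1)) → (∀ i, x (l0 i) = 1) →
      Pd g dg D (fun j => (x j : K)) (fun a => eval (fun j => (x j : K))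
        (map E.toSubfield.subtype (F a))) m μ J →
      ∀ j, hgt (kap k0 y i) (⟨(x j : K), subset_LL y _ i (x j).2⟩ :
        LL k0 y (E : Set K) i) ≤ B := by
  classical
  have hFF : IsFF (kap k0 y i) (LL k0 y (E : Set K) i) := LL_ff E hy i
  have hac : IsAlgClosed (kap k0 y i) := acl_isAlgClosed _
  have hcz : CharZero (kap k0 y i) := charZero_of_injective_algebraMap
    (algebraMap ℚ (kap k0 y i)).injective
  obtain ⟨φ, D', e, hφ, hD', hdat⟩ := exists_data_L E hy hG D hDE hDk hDy i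
  obtain ⟨H, hH⟩ : ∃ H : ℤ, H = max (∑ᶠ P, ((n + 1) * e P)) 0 := ⟨_, rfl⟩
  have hH0 : 0 ≤ H := by rw [hH]; exact le_max_right _ _
  refine ⟨H, fun x m μ J hd hx hpd j => ?_⟩
  obtain ⟨x', hx'⟩ : ∃ x' : Fin (n + 1) → LL k0 y (E : Set K) i,
    ∀ j, x' j = ⟨(x j : K), subset_LL y _ i (x j).2⟩ := ⟨_, fun _ => rfl⟩
  have hxl0 : ∀ i, x' (l0 i) = 1 := by
    intro i
    rw [hx']
    apply Subtype.ext
    change (x (l0 i) : K) = 1
    rw [hx]; rfl
  have hev : ∀ a, algebraMap (LL k0 y (E : Set K) i) K (eval x' (map φ (F a))) =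
      eval (fun j => (x j : K)) (map E.toSubfield.subtype (F a)) := by
    intro a
    rw [eval_incl φ hφ (F a) x']
    congr 2
    funext j
    rw [hx']
    rfl
  have hpd' : Pd g dg D' x' (fun a => eval x' (map φ (F a))) m μ J := by
    refine Pd.descend (L' := K) (D' := D) (fun a I f => hD' a I f) ?_
    have h1 : (fun j => algebraMap (LL k0 y (E : Set K) i) K (x' j)) = fun j => (x j : K) := by
      funext j
      rw [hx']
      rfl
    rw [h1]
    simp only [hev]
    exact hpd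
  have h1 : pht (kap k0 y i) (bl g (g j) x') ≤ H := by
    rw [hH]
    exact (hpd'.ineq hdat hd hg0 hxl0 (g j)).trans (le_max_left _ _)
  have hb : ∀ s, g s = g j → bl g (g j) x' s = x' s := fun s hs => by
    unfold bl
    rw [if_pos hs]
  rw [← hx']
  by_cases hj : x' j = 0
  · rw [hj]
    have := Pool.Agent.TH145.MG.hgt_const (k := kap k0 y i) (L := LL k0 y (E : Set K) i) 0
    rw [map_zero] at this
    rw [this]
    exact hH0
  · have h2 := Pool.Agent.W603.CX.hgt_le_pht (k := kap k0 y i) (bl g (g j) x') (j := j)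
      (l := l0 (g j)) (by rw [hb j rfl]; exact hj)
      (by rw [hb _ (hg0 _), hxl0]; exact one_ne_zero)
    rw [hb _ (hg0 _), hb j rfl, hxl0, div_one] at h2
    exact h2.trans h1

/-- Finiteness of the points, for fixed numbers. -/
theorem fin_fixed {n m : ℕ} {A ι : Type} [DecidableEq ι] [Fintype ι] {μ : ι → ℕ}
    {g : Fin (n + 1) → ι} {J : Finset A}
    [Fintype A] {dg : A → ι → ℕ} [IsAlgClosed k0] [Finite η]
    (hy : IsTranscendenceBasis k0 y)
    [FiniteDimensional (IntermediateField.adjoin k0 (Set.range y)) E]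
    [IsGalois (IntermediateField.adjoin k0 (Set.range y)) E]
    {F : A → MvPolynomial (Fin (n + 1)) E.toSubfield}
    {DE : A → (Fin (n + 1) →₀ ℕ) → E.toSubfield → E.toSubfield}
    (hG : Gen g F dg DE)
    (D : A → (Fin (n + 1) →₀ ℕ) → Derivation ℤ K K)
    (hDE : ∀ a I (x : E.toSubfield), D a I x = (DE a I x : K))
    (hDk : ∀ a I (r : k0), D a I (algebraMap k0 K r) = 0)
    (hDy : ∀ a I j, ∃ r : k0, D a I (y j) = algebraMap k0 K r)
    (hd : ∀ i, m + μ i + 2 ≤ ∑ a ∈ J, (dg a i + 1))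
    {l0 : ι → Fin (n + 1)} (hg0 : ∀ i, g (l0 i) = i) :
    {x : Fin (n + 1) → K | (∀ j, x j ∈ E) ∧ (∀ i, x (l0 i) = 1) ∧
      Pd g dg D x (fun a => eval x (map E.toSubfield.subtype (F a))) m μ J}.Finite := by
  by_contra hinf
  let f := Set.Infinite.natEmbedding _ hinf
  obtain ⟨x, hx⟩ : ∃ x : ℕ → Fin (n + 1) → K, ∀ n, x n = (f n).1 := ⟨_, fun _ => rfl⟩
  have hxinj : Function.Injective x := by
    intro a b hab
    rw [hx, hx] at hab
    exact f.injective (Subtype.ext hab)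
  have hxE : ∀ n j, x n j ∈ E := fun n j => by rw [hx]; exact (f n).2.1 j
  have hxl : ∀ n i, x n (l0 i) = 1 := fun n i => by rw [hx]; exact (f n).2.2.1 i
  have hxP : ∀ n, Pd g dg D (x n) (fun a => eval (x n) (map E.toSubfield.subtype (F a)))
      m μ J := fun n => by
    rw [hx]; exact (f n).2.2.2
  choose B hB using fun i => heightsU E hy.1 hG D hDE hDk hDy hg0 i
  have hB' : ∀ n i j, hgt (kap k0 y i) (⟨x n j, subset_LL y _ i (hxE n j)⟩ :
        LL k0 y (E : Set K) i) ≤ B i := fun n i j =>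
    hB i (fun j => ⟨x n j, hxE n j⟩) m μ J hd (fun i => Subtype.ext (hxl n i)) (hxP n) j
  have hz : ∀ j, Om.mk (fun n => x n j) ∈ OE k0 ((E.toSubfield : Subfield K) : Set K) := fun j =>
    lim_mem E hy (fun n => ⟨x n j, hxE n j⟩) B fun n i => hB' n i j
  have hacl := limitU E.toSubfield (fun r => k0_mem E r) hG D hDE hDk hd x hxP hz hg0 hxl
  choose a ha using fun j => eventually_const (hacl j)
  exact not_all_const hxinj a ha

end fin

end Pool.Agent.V7H43.GU
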