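import Pool.Agent.V7H43.GU.Rel
import Pool.Agent.TH145.GH.Limit

/-!
The data of a point: the ranks of the spaces of the vector fields, and the relations between the
derivatives of the values of the forms.
-/

set_option autoImplicit false

open MvPolynomial FF Pool.Agent.W603.LV Pool.Agent.W603.PV Pool.Agent.W602.RG
open Pool.Agent.TH145.GH Pool.Agent.TH145.MG Pool.Agent.W602.GT
open Pool.Agent.TH145.GC (Ev exists_minor)
open Pool.Agent.TH145.GE (ev)
open Pool.Agent.V7H76.MP

namespace Pool.Agent.V7H43.GU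

/-- The data of a point. -/
structure Pd {L : Type} [Field L] {n : ℕ} {A ι : Type} [DecidableEq ι] [Fintype ι] [Fintype A]
    (g : Fin (n + 1) → ι) (dg : A → ι → ℕ) (D : A → (Fin (n + 1) →₀ ℕ) → Derivation ℤ L L)
    (x : Fin (n + 1) → L) (y : A → L) (m : ℕ) (μ : ι → ℕ) (J : Finset A) : Prop where
  rk : Module.finrank L (Submodule.span L (Set.range (fam g dg D x))) ≤ m + Fintype.card ι
  blk : ∀ i, Module.finrank L (Submodule.span L
    (Set.range fun r l => bl g i (fam g dg D x r) l)) ≤ μ i + 1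
  rel : ∀ s ∈ J, ∃ lam : Fin (n + 1) ⊕ A → L, (∀ b ∈ J, lam (Sum.inr b) = 0) ∧
    ∀ a I, D a I (y s) = ∑ p, lam p * D a I (Sum.elim x y p)

theorem full_block {L : Type} [Field L] {n : ℕ} {A ι : Type} [DecidableEq ι]
    {g : Fin (n + 1) → ι} {dg : A → ι → ℕ}
    (D : A → (Fin (n + 1) →₀ ℕ) → Derivation ℤ L L) (x : Fin (n + 1) → L) (i : ι) :
    (Full g dg D (noE L) x).map (blkL L g i) =
      Submodule.span L (Set.range fun r l => bl g i (fam g dg D x r) l) := by
  rw [full_eq, Submodule.map_span, ← Set.range_comp]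
  rfl

section

variable {n : ℕ} {A ι : Type} [DecidableEq ι] [Fintype ι] [Fintype A] {g : Fin (n + 1) → ι}
  {dg : A → ι → ℕ} {m : ℕ} {μ : ι → ℕ} {J : Finset A}

omit [DecidableEq ι] [Fintype ι] [Fintype A] in
/-- The field generated by the ratios of the coordinates of a normalised point. -/
theorem coordsM_eq {k K : Type} [Field k] [Field K] [Algebra k K] {x : Fin (n + 1) → K}
    {l0 : ι → Fin (n + 1)} (hg : ∀ i, g (l0 i) = i) (hx : ∀ i, x (l0 i) = 1) :
    coordsM g k x = IntermediateField.adjoin k (Set.range x) := by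
  apply le_antisymm
  · unfold coordsM
    rw [IntermediateField.adjoin_le_iff]
    rintro z ⟨i, j, -, -, rfl⟩
    exact div_mem (IntermediateField.subset_adjoin _ _ ⟨i, rfl⟩)
      (IntermediateField.subset_adjoin _ _ ⟨j, rfl⟩)
  · rw [IntermediateField.adjoin_le_iff]
    rintro z ⟨s, rfl⟩
    exact IntermediateField.subset_adjoin _ _ ⟨s, l0 (g s), (hg _).symm, by
      rw [hx]; exact one_ne_zero, by rw [hx, div_one]⟩

omit [Fintype ι] in
theorem coords_bl_eq {k K : Type} [Field k] [Field K] [Algebra k K] {x : Fin (n + 1) → K}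
    {l0 : ι → Fin (n + 1)} (hg : ∀ i, g (l0 i) = i) (hx : ∀ i, x (l0 i) = 1) (i : ι) :
    coords k (bl g i x) = IntermediateField.adjoin k (x '' {s | g s = i}) := by
  have hb : ∀ s, g s = i → bl g i x s = x s := fun s hs => by
    unfold bl
    rw [if_pos hs]
  have h0 : ∀ s, g s ≠ i → bl g i x s = 0 := fun s hs => by
    unfold bl
    rw [if_neg hs]
  have hm : ∀ s, bl g i x s ∈ IntermediateField.adjoin k (x '' {s | g s = i}) := by
    intro s
    by_cases h : g s = i
    · rw [hb s h]
      exact IntermediateField.subset_adjoin _ _ ⟨s, h, rfl⟩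
    · rw [h0 s h]
      exact zero_mem _
  apply le_antisymm
  · unfold coords
    rw [IntermediateField.adjoin_le_iff]
    rintro z ⟨s, t, -, rfl⟩
    exact div_mem (hm s) (hm t)
  · rw [IntermediateField.adjoin_le_iff]
    rintro _ ⟨s, hs, rfl⟩
    refine IntermediateField.subset_adjoin _ _ ⟨s, l0 i, ?_, ?_⟩
    · rw [hb _ (hg i), hx]
      exact one_ne_zero
    · rw [hb _ (hg i), hb _ hs, hx, div_one]

/-- The data of a point, from the transcendence degrees. -/
theorem Pd.of_alg {k0 L : Type} [Field k0] [Field L] [Algebra k0 L] [CharZero L]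
    {D : A → (Fin (n + 1) →₀ ℕ) → Derivation ℤ L L}
    (hDk : ∀ a I (r : k0), D a I (algebraMap k0 L r) = 0) {x : Fin (n + 1) → L} {y : A → L}
    {l0 : ι → Fin (n + 1)} (hg : ∀ i, g (l0 i) = i) (hx : ∀ i, x (l0 i) = 1)
    (hm : Algebra.trdeg k0 (IntermediateField.adjoin k0 (Set.range x)) ≤ m)
    (hμ : ∀ i, Algebra.trdeg k0 (IntermediateField.adjoin k0 (x '' {s | g s = i})) ≤ μ i)
    (hJ : ∀ a ∈ J, IsAlgebraic (IntermediateField.adjoin k0
      (Set.range x ∪ y '' {b | b ∉ J})) (y a)) :
    Pd g dg D x y m μ J := by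
  have h2 := full_le_tanM (g := g) (dg := dg) (D := D) (E := noE L) (k0 := k0) hDk
    (fun ξ => ξ.elim) x
  refine ⟨?_, fun i => ?_, fun s hs => ?_⟩
  · rw [← full_eq]
    rw [← coordsM_eq hg hx] at hm
    exact (Submodule.finrank_mono h2).trans (tanM_rank hg hx hm)
  · rw [← full_block]
    have h3 := hμ i
    rw [← coords_bl_eq hg hx i] at h3
    exact (Submodule.finrank_mono (Submodule.map_mono h2)).trans (tanM_block (hg i) (hx i) h3)
  · obtain ⟨lam, h3, h4⟩ := exists_relation (k0 := k0) (Sum.elim x y) (Sum.inr '' (J : Set A))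
      (z := y s) (by
        have h5 : Sum.elim x y '' (Sum.inr '' (J : Set A))ᶜ =
            Set.range x ∪ y '' {b | b ∉ J} := by
          ext z
          constructor
          · rintro ⟨l | b, hb, rfl⟩
            · exact Or.inl ⟨l, rfl⟩
            · refine Or.inr ⟨b, fun hbJ => hb ⟨b, hbJ, rfl⟩, rfl⟩
          · rintro (⟨l, rfl⟩ | ⟨b, hb, rfl⟩)
            · refine ⟨Sum.inl l, ?_, rfl⟩
              rintro ⟨b, -, h⟩
              exact absurd h (by simp)
            · refine ⟨Sum.inr b, ?_, rfl⟩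
              rintro ⟨c, hc, h⟩
              exact hb (Sum.inr_injective h ▸ hc)
        rw [h5]
        exact hJ s hs)
    exact ⟨lam, fun b hb => h3 _ ⟨b, hb, rfl⟩, fun a I => h4 _ (hDk a I)⟩

/-- A system of linear equations with a solution over an extension. -/
theorem rel_descend {L L' : Type} [Field L] [Field L'] [Algebra L L'] {S P : Type} [Fintype P]
    (α : S → P → L) (γ : S → L) {Z : Set P} (lam : P → L') (hZ : ∀ p ∈ Z, lam p = 0)
    (h : ∀ s, algebraMap L L' (γ s) = ∑ p, lam p * algebraMap L L' (α s p)) :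
    ∃ lam' : P → L, (∀ p ∈ Z, lam' p = 0) ∧ ∀ s, γ s = ∑ p, lam' p * α s p := by
  obtain ⟨π, hπ⟩ := LinearMap.exists_leftInverse_of_injective (Algebra.linearMap L L')
    (LinearMap.ker_eq_bot.2 (algebraMap L L').injective)
  have hπ' : ∀ z, π (algebraMap L L' z) = z := fun z => LinearMap.congr_fun hπ z
  refine ⟨fun p => π (lam p), fun p hp => by
    dsimp only
    rw [hZ p hp, map_zero], fun s => ?_⟩
  rw [← hπ' (γ s), h s, map_sum]
  refine Finset.sum_congr rfl fun p _ => ?_
  rw [mul_comm, ← Algebra.smul_def, map_smul, smul_eq_mul, mul_comm]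

/-- The data of a point, in a smaller field. -/
theorem Pd.descend {L L' : Type} [Field L] [Field L'] [Algebra L L']
    {D : A → (Fin (n + 1) →₀ ℕ) → Derivation ℤ L L}
    {D' : A → (Fin (n + 1) →₀ ℕ) → Derivation ℤ L' L'}
    (hD : ∀ a I f, algebraMap L L' (D a I f) = D' a I (algebraMap L L' f))
    {x : Fin (n + 1) → L} {y : A → L}
    (h : Pd g dg D' (fun j => algebraMap L L' (x j)) (fun a => algebraMap L L' (y a)) m μ J) :
    Pd g dg D x y m μ J := by
  refine ⟨?_, fun i => ?_, fun s hs => ?_⟩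
  · refine rank_ext (algebraMap L L') (fam g dg D x) ?_
    have h1 : (fun r j => algebraMap L L' (fam g dg D x r j)) =
        fam g dg D' (fun j => algebraMap L L' (x j)) := by
      funext r j
      exact fam_map (algebraMap L L') hD x r j
    rw [h1]
    exact h.rk
  · refine rank_ext (algebraMap L L') (fun r l => bl g i (fam g dg D x r) l) ?_
    have h1 : (fun r j => algebraMap L L' (bl g i (fam g dg D x r) j)) =
        fun r j => bl g i (fam g dg D' (fun j => algebraMap L L' (x j)) r) j := by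
      funext r j
      unfold bl
      split_ifs
      · exact fam_map (algebraMap L L') hD x r j
      · exact map_zero _
    rw [h1]
    exact h.blk i
  · obtain ⟨lam, h1, h2⟩ := h.rel s hs
    obtain ⟨lam', h3, h4⟩ := rel_descend (L := L) (L' := L')
      (S := A × (Fin (n + 1) →₀ ℕ)) (fun q p => D q.1 q.2 (Sum.elim x y p))
      (fun q => D q.1 q.2 (y s)) (Z := Sum.inr '' (J : Set A)) lam (by
        rintro _ ⟨b, hb, rfl⟩
        exact h1 b hb) (fun q => by
        rw [hD, h2]
        refine Finset.sum_congr rfl fun p _ => ?_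
        rw [hD]
        rcases p with p | p <;> rfl)
    exact ⟨lam', fun b hb => h3 _ ⟨b, hb, rfl⟩, fun a I => h4 (a, I)⟩

/-- Ranks in the ultrapower. -/
theorem rank_om {K : Type} [Field K] {R : Type} {N : ℕ} (v : ℕ → R → Fin N → K) {r : ℕ}
    (h : ∀ n, Module.finrank K (Submodule.span K (Set.range (v n))) ≤ r) :
    Module.finrank (Om K) (Submodule.span (Om K)
      (Set.range fun i j => Om.mk fun n => v n i j)) ≤ r := by
  classical
  by_contra hcon
  rw [not_le] at hcon
  obtain ⟨b0, -, -, hspan, hind⟩ := exists_linearIndepOn_extension (K := Om K)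
    (v := fun i j => Om.mk fun n => v n i j)
    (s := (∅ : Set R)) (t := Set.univ) (linearIndepOn_empty _ _) (Set.empty_subset _)
  have hfin : b0.Finite := by
    have h1 : LinearIndependent (Om K) (fun i : b0 => (fun j => Om.mk fun n => v n i j :
      Fin N → Om K)) := hind
    have := h1.finite
    exact Set.toFinite b0
  obtain ⟨b, hb⟩ : ∃ b : Finset R, (b : Set R) = b0 := ⟨hfin.toFinset, hfin.coe_toFinset⟩
  rw [← hb] at hspan hind
  have hbi : LinearIndependent (Om K) (fun i : b => (fun j => Om.mk fun n => v n i j :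
      Fin N → Om K)) := hind
  have h1 : Submodule.span (Om K) (Set.range fun i j => Om.mk fun n => v n i j) =
      Submodule.span (Om K) (Set.range fun i : b => (fun j => Om.mk fun n => v n i j :
        Fin N → Om K)) := by
    apply le_antisymm
    · rw [Submodule.span_le]
      rintro _ ⟨i, rfl⟩
      have h2 := hspan ⟨i, Set.mem_univ _, rfl⟩
      rwa [Set.image_eq_range] at h2
    · rw [Submodule.span_le]
      rintro _ ⟨i, rfl⟩
      exact Submodule.subset_span ⟨i.1, rfl⟩
  rw [h1, finrank_span_eq_card hbi, Fintype.card_coe] at hcon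
  obtain ⟨τ, hτ⟩ := exists_minor _ hbi
  -- the minor at an index
  obtain ⟨n, hn⟩ : ∃ n, (Matrix.of fun (i j : b) => v n i (τ j)).det ≠ 0 := by
    by_contra hcon
    push Not at hcon
    apply hτ
    have h2 := RingHom.map_det (Pool.Agent.TH145.MF.mkHom K)
      (Matrix.of fun (i j : b) => (fun n => v n i (τ j) : ℕ → K))
    have h3 : (Matrix.of fun (i j : b) => (fun n => v n i (τ j) : ℕ → K)).det = 0 := by
      funext n
      have h4 := RingHom.map_det (Pi.evalRingHom (fun _ : ℕ => K) n)
        (Matrix.of fun (i j : b) => (fun n => v n i (τ j) : ℕ → K))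
      have h5 : (Pi.evalRingHom (fun _ : ℕ => K) n).mapMatrix
          (Matrix.of fun (i j : b) => (fun n => v n i (τ j) : ℕ → K)) =
          Matrix.of fun (i j : b) => v n i (τ j) := rfl
      rw [h5, hcon n] at h4
      exact h4
    rw [h3, map_zero] at h2
    exact h2.symm
  have h3 := Matrix.linearIndependent_rows_of_det_ne_zero hn
  obtain ⟨π, hπ⟩ : ∃ π : (Fin N → K) →ₗ[K] (b → K), ∀ z j, π z j = z (τ j) :=
    ⟨{ toFun := fun z j => z (τ j)
       map_add' := fun _ _ => rfl
       map_smul' := fun _ _ => rfl }, fun _ _ => rfl⟩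
  have h4 : LinearIndependent K fun i : b => v n i := by
    refine LinearIndependent.of_comp π ?_
    have h5 : (⇑π ∘ fun i : b => v n i) = (Matrix.of fun (i j : b) => v n i (τ j)).row := by
      funext i j
      rw [Function.comp_apply, hπ]
      rfl
    rw [h5]
    exact h3
  have h5 : Submodule.span K (Set.range fun i : b => v n i) ≤
      Submodule.span K (Set.range (v n)) := by
    refine Submodule.span_mono ?_
    rintro _ ⟨i, rfl⟩
    exact ⟨i.1, rfl⟩
  have h6 := Submodule.finrank_mono h5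
  rw [finrank_span_eq_card h4, Fintype.card_coe] at h6
  have h7 := h n
  omega

omit [Fintype ι] [Fintype A] in
/-- The generators in the ultrapower. -/
theorem fam_om {K : Type} [Field K] {D : A → (Fin (n + 1) →₀ ℕ) → Derivation ℤ K K}
    (xs : ℕ → Fin (n + 1) → K) (r : Ix ι Empty n A ⊕ Cf g dg) (j : Fin (n + 1)) :
    fam g dg (fun a I => hat (D a I)) (fun l => Om.mk fun q => xs q l) r j =
      Om.mk fun q => fam g dg D (xs q) r j := by
  rcases r with (i | ξ | t) | p
  · simp only [fam, wv, bl]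
    split_ifs
    · rfl
    · rfl
  · exact ξ.elim
  · simp only [fam, wv, tv]
    split_ifs
    · rfl
    · rfl
  · rfl

/-- The data of a limit point. -/
theorem Pd.om {K : Type} [Field K] {D : A → (Fin (n + 1) →₀ ℕ) → Derivation ℤ K K}
    {xs : ℕ → Fin (n + 1) → K} {ys : ℕ → A → K} (h : ∀ q, Pd g dg D (xs q) (ys q) m μ J) :
    Pd g dg (fun a I => hat (D a I)) (fun l => Om.mk fun q => xs q l)
      (fun a => Om.mk fun q => ys q a) m μ J := by
  refine ⟨?_, fun i => ?_, fun s hs => ?_⟩
  · have h1 : fam g dg (fun a I => hat (D a I)) (fun l => Om.mk fun q => xs q l) =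
        fun r j => Om.mk fun q => fam g dg D (xs q) r j := by
      funext r j
      exact fam_om xs r j
    rw [h1]
    exact rank_om (fun q => fam g dg D (xs q)) fun q => (h q).rk
  · have h1 : (fun r j => bl g i (fam g dg (fun a I => hat (D a I))
        (fun l => Om.mk fun q => xs q l) r) j) =
        fun r j => Om.mk fun q => bl g i (fam g dg D (xs q) r) j := by
      funext r j
      unfold bl
      split_ifs
      · exact fam_om xs r j
      · rfl
    rw [h1]
    exact rank_om (fun q r j => bl g i (fam g dg D (xs q) r) j) fun q => (h q).blk i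
  · choose lam h1 h2 using fun q => (h q).rel s hs
    refine ⟨fun p => Om.mk fun q => lam q p, fun b hb => ?_, fun a I => ?_⟩
    · simp only [h1 _ b hb]
      rfl
    · rw [hat_mk]
      simp only [h2]
      have h3 : (Om.mk fun q => ∑ p, lam q p * D a I (Sum.elim (xs q) (ys q) p)) =
          ∑ p, Om.mk fun q => lam q p * D a I (Sum.elim (xs q) (ys q) p) := by
        have h4 := map_sum (Pool.Agent.TH145.MF.mkHom K)
          (fun (p : Fin (n + 1) ⊕ A) (q : ℕ) => lam q p * D a I (Sum.elim (xs q) (ys q) p))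
          Finset.univ
        rw [← Pool.Agent.TH145.MF.mkHom_apply]
        have h5 : (fun q => ∑ p, lam q p * D a I (Sum.elim (xs q) (ys q) p)) =
            ∑ p, fun (q : ℕ) => lam q p * D a I (Sum.elim (xs q) (ys q) p) := by
          funext q
          rw [Finset.sum_apply]
        rw [h5]
        exact h4
      rw [h3]
      refine Finset.sum_congr rfl fun p _ => ?_
      rcases p with p | p <;> rfl

/-- The functionals of a point. -/
theorem Pd.exists_fun {L : Type} [Field L] {D : A → (Fin (n + 1) →₀ ℕ) → Derivation ℤ L L}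
    {x : Fin (n + 1) → L} {F : A → MvPolynomial (Fin (n + 1)) L}
    (h : Pd g dg D x (fun a => eval x (F a)) m μ J) (hD : DualE g F dg D fun _ _ => 0)
    {l0 : ι → Fin (n + 1)} (hg : ∀ i, g (l0 i) = i) (hx : ∀ i, x (l0 i) = 1) :
    ∃ Φ : {a // a ∈ J} → (Fin (n + 1) → L) →ₗ[L] L,
      Fun g (dg ∘ fun a : {a // a ∈ J} => a.1) (D ∘ fun a : {a // a ∈ J} => a.1) (noE L) x Φ := by
  classical
  have h1 : ∀ s : {a // a ∈ J}, ∃ Φ : (Fin (n + 1) → L) →ₗ[L] L, (∀ i, Φ (bl g i x) = 0) ∧
      ∀ (t : {a // a ∈ J}) I, mdeg g I = dg t.1 →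
        Φ (fun l => D t.1 I (x l)) = -if t = s then mon x I else 0 := by
    intro s
    obtain ⟨lam, h1, h2⟩ := h.rel s.1 s.2
    obtain ⟨Φ, h3, h4⟩ := exists_functional hg hx F s.1 lam
    refine ⟨Φ, h3, fun t I hI => ?_⟩
    have h5 : ∀ a, ∑ u ∈ (F a).support, D t.1 I ((F a).coeff u) * mon x u =
        if t.1 = a then mon x I else 0 := fun a => by
      rw [hD t.1 a I hI x, Nat.cast_zero, zero_mul, sub_zero]
    rw [h4 (D t.1 I) (h2 t.1 I), h5, Finset.sum_eq_zero, add_zero]
    · congr 1
      by_cases hts : t = s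
      · rw [if_pos hts, if_pos (congrArg Subtype.val hts)]
      · rw [if_neg hts, if_neg fun h => hts (Subtype.ext h)]
    · intro a _
      rw [h5]
      by_cases ha : t.1 = a
      · rw [h1 a (ha ▸ t.2), zero_mul]
      · rw [if_neg ha, mul_zero]
  choose Φ h2 h3 using h1
  refine ⟨Φ, fun c i => h2 c i, fun c ξ => ξ.elim, fun t s I hI => ?_⟩
  exact (h3 s t I hI).trans (by congr)

omit [Fintype ι] [Fintype A] in
theorem full_mono {L B X : Type} [Field L] {D : A → (Fin (n + 1) →₀ ℕ) → Derivation ℤ L L}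
    {E : X → Derivation ℤ L L} (β : B → A) (x : Fin (n + 1) → L) :
    Full g (dg ∘ β) (D ∘ β) E x ≤ Full g dg D E x := by
  unfold Full
  refine Submodule.span_le.2 ?_
  rintro _ (⟨o, rfl⟩ | ⟨a, I, hI, rfl⟩)
  · rcases o with i | ξ | t
    · exact Submodule.subset_span (Or.inl ⟨Sum.inl i, rfl⟩)
    · exact Submodule.subset_span (Or.inl ⟨Sum.inr (Sum.inl ξ), rfl⟩)
    · refine Submodule.subset_span (Or.inl ⟨Sum.inr (Sum.inr (β t.1, t.2)), ?_⟩)
      simp only [wv, tv]
      by_cases ht : Ok g (dg ∘ β) t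
      · have ht' : Ok g dg (β t.1, t.2) := ht
        rw [if_pos ht, if_pos ht']
        rfl
      · have ht' : ¬ Ok g dg (β t.1, t.2) := ht
        rw [if_neg ht, if_neg ht']
  · exact Submodule.subset_span (Or.inr ⟨β a, I, hI, rfl⟩)

/-- The height inequality. -/
theorem Pd.ineq {k K : Type} [Field k] [Field K] [Algebra k K] [IsAlgClosed k] [CharZero k]
    [IsFF k K] {F : A → MvPolynomial (Fin (n + 1)) K}
    {D : A → (Fin (n + 1) →₀ ℕ) → Derivation ℤ K K} {e : Place k K → ℤ}
    (hdat : Data k g F dg D e) {x : Fin (n + 1) → K}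
    (h : Pd g dg D x (fun a => eval x (F a)) m μ J)
    (hdim : ∀ i, m + μ i + 2 ≤ ∑ a ∈ J, (dg a i + 1))
    {l0 : ι → Fin (n + 1)} (hg : ∀ i, g (l0 i) = i) (hx : ∀ i, x (l0 i) = 1) (i0 : ι) :
    pht k (bl g i0 x) ≤ ∑ᶠ P, (n + 1) * e P := by
  obtain ⟨Φ, hΦ⟩ := h.exists_fun (hdat.dual.dualE hdat.hom) hg hx
  have h1 := full_mono (g := g) (dg := dg) (D := D) (E := noE K)
    (fun a : {a // a ∈ J} => a.1) x
  refine ineqW hdat (fun a : {a // a ∈ J} => a.1) (m := m) (μ := μ) (fun i => ?_)
    (fun i => ⟨l0 i, hg i, by rw [hx]; exact one_ne_zero⟩)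
    ((Submodule.finrank_mono h1).trans (by rw [full_eq]; exact h.rk)) (fun i =>
      (Submodule.finrank_mono (Submodule.map_mono h1)).trans (by
        rw [full_block]; exact h.blk i)) hΦ i0
  have h2 := hdim i
  rw [Finset.sum_add_distrib, ← Finset.card_eq_sum_ones] at h2
  rw [← Finset.sum_coe_sort J (fun a => dg a i)] at h2
  rw [Fintype.card_coe]
  exact h2

end

end Pool.Agent.V7H43.GU
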