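import Pool.Agent.V7H43.GU.Rows
import Pool.Agent.V7H76.MP.Rank

/-!
Linear relations between the derivatives of a point `x` and of the values of forms at `x`, if some
of these values are algebraic over the field generated by the others and by the coordinates
of `x`.
-/

set_option autoImplicit false

open MvPolynomial Pool.Agent.TH145.GH
open Pool.Agent.TH145.GC (Ev der_zero_of_alg exists_minor)
open Pool.Agent.TH145.GE (ev)
open Pool.Agent.V7H76.MP

namespace Pool.Agent.V7H43.GU

section rel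

variable {k0 L : Type} [Field k0] [Field L] [Algebra k0 L] [CharZero L]

/-- A linear relation between the derivatives. -/
theorem exists_relation {P : Type} [Fintype P] (v : P → L) (J : Set P) {z : L}
    (h : IsAlgebraic (IntermediateField.adjoin k0 (v '' Jᶜ)) z) :
    ∃ lam : P → L, (∀ p ∈ J, lam p = 0) ∧ ∀ δ : Derivation ℤ L L,
      (∀ r : k0, δ (algebraMap k0 L r) = 0) → δ z = ∑ p, lam p * δ (v p) := by
  classical
  -- the derivations over `k0`
  obtain ⟨N, hN⟩ : ∃ N : Submodule L (Derivation ℤ L L), ∀ δ, δ ∈ N ↔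
      ∀ r : k0, δ (algebraMap k0 L r) = 0 :=
    ⟨{ carrier := {δ | ∀ r : k0, δ (algebraMap k0 L r) = 0}
       add_mem' := fun {a b} ha hb r => by
         rw [Derivation.add_apply, ha r, hb r, add_zero]
       zero_mem' := fun r => rfl
       smul_mem' := fun c a ha r => by
         rw [Derivation.smul_apply, ha r, smul_zero] }, fun _ => Iff.rfl⟩
  obtain ⟨ρ, hρ⟩ : ∃ ρ : N →ₗ[L] ({p // p ∉ J} → L), ∀ δ p, ρ δ p = δ.1 (v p.1) :=
    ⟨{ toFun := fun δ p => δ.1 (v p.1)
       map_add' := fun a b => rfl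
       map_smul' := fun c a => rfl }, fun _ _ => rfl⟩
  obtain ⟨lam, hlam⟩ : ∃ lam : N →ₗ[L] L, ∀ δ, lam δ = δ.1 z :=
    ⟨{ toFun := fun δ => δ.1 z
       map_add' := fun _ _ => rfl
       map_smul' := fun _ _ => rfl }, fun _ => rfl⟩
  have hker : lam ∈ (LinearMap.ker ρ).dualAnnihilator := by
    rw [Submodule.mem_dualAnnihilator]
    intro δ hδ
    rw [LinearMap.mem_ker] at hδ
    rw [hlam]
    have hx : ∀ p ∉ J, δ.1 (v p) = 0 := fun p hp => by rw [← hρ δ ⟨p, hp⟩, hδ]; rfl
    have hZ : ∀ w ∈ Subfield.closure (Set.range (algebraMap k0 L) ∪ v '' Jᶜ), δ.1 w = 0 := by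
      intro w hw
      induction hw using Subfield.closure_induction with
      | mem w hw =>
        rcases hw with ⟨r, rfl⟩ | ⟨p, hp, rfl⟩
        · exact (hN _).1 δ.2 r
        · exact hx p hp
      | one => exact δ.1.map_one_eq_zero
      | add a b _ _ ha hb => rw [map_add, ha, hb, add_zero]
      | neg a _ ha => rw [map_neg, ha, neg_zero]
      | inv a _ ha => rw [Derivation.leibniz_inv, ha, smul_zero]
      | mul a b _ _ ha hb => rw [δ.1.leibniz, ha, hb, smul_zero, smul_zero, add_zero]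
    refine der_zero_of_alg δ.1 _ hZ ?_
    have h3 : (IntermediateField.adjoin k0 (v '' Jᶜ)).toSubfield =
        Subfield.closure (Set.range (algebraMap k0 L) ∪ v '' Jᶜ) :=
      IntermediateField.adjoin_toSubfield _ _
    rw [← h3]
    exact h
  rw [← LinearMap.range_dualMap_eq_dualAnnihilator_ker] at hker
  obtain ⟨ψ, hψ⟩ := hker
  refine ⟨fun p => if hp : p ∉ J then ψ (fun q => if (⟨p, hp⟩ : {p // p ∉ J}) = q then 1 else 0)
    else 0, fun p hp => dif_neg (by rw [not_not]; exact hp), fun δ hδ => ?_⟩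
  obtain ⟨δ', hδ'⟩ : ∃ δ' : N, δ'.1 = δ := ⟨⟨δ, (hN _).2 hδ⟩, rfl⟩
  have h1 : lam δ' = ψ (ρ δ') := by rw [← hψ]; rfl
  rw [hlam, hδ', LinearMap.pi_apply_eq_sum_univ ψ (ρ δ')] at h1
  rw [h1, ← Finset.sum_subset (Finset.subset_univ (Finset.univ.filter fun p => p ∉ J))]
  · rw [← Finset.sum_subtype_eq_sum_filter]
    rw [Finset.subtype_univ]
    refine Finset.sum_congr rfl fun p _ => ?_
    dsimp only
    rw [dif_pos p.2, hρ, hδ', smul_eq_mul, mul_comm]
  · intro p _ hp
    have hpJ : p ∈ J := by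
      by_contra hcon
      exact hp (Finset.mem_filter.2 ⟨Finset.mem_univ _, hcon⟩)
    dsimp only
    rw [dif_neg (by rw [not_not]; exact hpJ), zero_mul]

end rel

/-- The functionals that are dual to the derivatives. -/
theorem exists_functional {L : Type} [Field L] {n : ℕ} {A ι : Type} [Fintype A] [DecidableEq ι]
    [Fintype ι] {g : Fin (n + 1) → ι}
    {l0 : ι → Fin (n + 1)} (hg0 : ∀ i, g (l0 i) = i) {x : Fin (n + 1) → L}
    (hx0 : ∀ i, x (l0 i) = 1) (F : A → MvPolynomial (Fin (n + 1)) L) (s : A)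
    (lam : Fin (n + 1) ⊕ A → L) :
    ∃ Φ : (Fin (n + 1) → L) →ₗ[L] L, (∀ i, Φ (bl g i x) = 0) ∧
      ∀ δ : Derivation ℤ L L,
      δ (eval x (F s)) = ∑ p, lam p * δ (Sum.elim x (fun a => eval x (F a)) p) →
      Φ (fun l => δ (x l)) = -(∑ u ∈ (F s).support, δ ((F s).coeff u) * mon x u) +
        ∑ a, lam (Sum.inr a) * ∑ u ∈ (F a).support, δ ((F a).coeff u) * mon x u := by
  classical
  obtain ⟨Ψ, hΨ⟩ : ∃ Ψ : (Fin (n + 1) → L) → L, ∀ z, Ψ z = dF (F s) x z -
    ∑ a, lam (Sum.inr a) * dF (F a) x z - ∑ l, lam (Sum.inl l) * z l := ⟨_, fun _ => rfl⟩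
  have hΨadd : ∀ z w, Ψ (z + w) = Ψ z + Ψ w := by
    intro z w
    simp only [hΨ, dF_add, mul_add, Finset.sum_add_distrib, Pi.add_apply]
    ring
  have hΨsmul : ∀ (r : L) z, Ψ (r • z) = r * Ψ z := by
    intro r z
    simp only [hΨ, dF_smul, Pi.smul_apply, smul_eq_mul, mul_sub, Finset.mul_sum]
    congr 1
    · congr 1
      exact Finset.sum_congr rfl fun a _ => by ring
    · exact Finset.sum_congr rfl fun a _ => by ring
  obtain ⟨Φ, hΦ⟩ : ∃ Φ : (Fin (n + 1) → L) →ₗ[L] L, ∀ z, Φ z = Ψ z -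
      ∑ i, Ψ (bl g i x) * z (l0 i) :=
    ⟨{ toFun := fun z => Ψ z - ∑ i, Ψ (bl g i x) * z (l0 i)
       map_add' := fun z w => by
         simp only [hΨadd, Pi.add_apply, mul_add, Finset.sum_add_distrib]
         ring
       map_smul' := fun r z => by
         simp only [hΨsmul, Pi.smul_apply, smul_eq_mul, RingHom.id_apply, mul_sub,
           Finset.mul_sum]
         congr 1
         exact Finset.sum_congr rfl fun a _ => by ring }, fun _ => rfl⟩
  refine ⟨Φ, fun i => ?_, fun δ hδ => ?_⟩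
  · rw [hΦ, Finset.sum_eq_single i]
    · have h1 : bl g i x (l0 i) = 1 := by
        unfold bl
        rw [if_pos (hg0 i), hx0]
      rw [h1, mul_one, sub_self]
    · intro j _ hj
      have h1 : bl g i x (l0 j) = 0 := by
        unfold bl
        rw [if_neg (by rw [hg0]; exact hj)]
      rw [h1, mul_zero]
    · intro h; exact absurd (Finset.mem_univ _) h
  · have h1 : ∑ i, Ψ (bl g i x) * δ (x (l0 i)) = 0 := by
      refine Finset.sum_eq_zero fun i _ => ?_
      rw [hx0, δ.map_one_eq_zero, mul_zero]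
    have h2 : ∀ a, dF (F a) x (fun l => δ (x l)) = δ (eval x (F a)) -
        ∑ u ∈ (F a).support, δ ((F a).coeff u) * mon x u := by
      intro a
      rw [chainM δ x (F a)]
      unfold dF
      ring
    rw [Fintype.sum_sum_type] at hδ
    simp only [Sum.elim_inl, Sum.elim_inr] at hδ
    rw [hΦ, h1, sub_zero, hΨ, h2, hδ]
    simp only [h2, mul_sub, Finset.sum_sub_distrib]
    ring

section pd

/-- The generators of the space of the vector fields. -/
noncomputable def fam {L : Type} [Field L] {n : ℕ} {A ι : Type} [DecidableEq ι]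
    (g : Fin (n + 1) → ι) (dg : A → ι → ℕ) (D : A → (Fin (n + 1) →₀ ℕ) → Derivation ℤ L L)
    (x : Fin (n + 1) → L) : Ix ι Empty n A ⊕ Cf g dg → Fin (n + 1) → L
  | Sum.inl o => wv g dg D (noE L) x o
  | Sum.inr p => Ev D x p.1 p.2.1

variable {L : Type} [Field L] {n : ℕ} {A ι : Type} [DecidableEq ι] {g : Fin (n + 1) → ι}
  {dg : A → ι → ℕ}

theorem full_eq (D : A → (Fin (n + 1) →₀ ℕ) → Derivation ℤ L L) (x : Fin (n + 1) → L) :
    Full g dg D (noE L) x = Submodule.span L (Set.range (fam g dg D x)) := by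
  unfold Full
  congr 1
  ext v
  constructor
  · rintro (⟨o, rfl⟩ | ⟨a, I, hI, rfl⟩)
    · exact ⟨Sum.inl o, rfl⟩
    · exact ⟨Sum.inr ⟨a, ⟨I, hI⟩⟩, rfl⟩
  · rintro ⟨o | p, rfl⟩
    · exact Or.inl ⟨o, rfl⟩
    · exact Or.inr ⟨p.1, p.2.1, p.2.2, rfl⟩

/-- The generators are compatible with extensions of the field. -/
theorem fam_map {L' : Type} [Field L'] (φ : L →+* L')
    {D : A → (Fin (n + 1) →₀ ℕ) → Derivation ℤ L L}
    {D' : A → (Fin (n + 1) →₀ ℕ) → Derivation ℤ L' L'}
    (hD : ∀ a I f, φ (D a I f) = D' a I (φ f)) (x : Fin (n + 1) → L)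
    (r : Ix ι Empty n A ⊕ Cf g dg) (j : Fin (n + 1)) :
    φ (fam g dg D x r j) = fam g dg D' (fun l => φ (x l)) r j := by
  rcases r with (i | ξ | t) | p
  · simp only [fam, wv, bl]
    split_ifs
    · rfl
    · exact map_zero _
  · exact ξ.elim
  · simp only [fam, wv, tv]
    split_ifs
    · simp only [Ev, Pi.sub_apply, Pi.smul_apply, smul_eq_mul, map_sub, map_mul, hD]
    · simp
  · simp only [fam, Ev]
    exact hD _ _ _

/-- Ranks and extensions of the field. -/
theorem rank_ext {L L' : Type} [Field L] [Field L'] (φ : L →+* L') {R : Type} {N : ℕ}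
    (v : R → Fin N → L) {r : ℕ}
    (h : Module.finrank L' (Submodule.span L' (Set.range fun i j => φ (v i j))) ≤ r) :
    Module.finrank L (Submodule.span L (Set.range v)) ≤ r := by
  classical
  obtain ⟨b0, -, -, hspan, hind⟩ := exists_linearIndepOn_extension (K := L) (v := v)
    (s := (∅ : Set R)) (t := Set.univ) (linearIndepOn_empty _ _) (Set.empty_subset _)
  have hfin : b0.Finite := by
    have h1 : LinearIndependent L (fun i : b0 => v i) := hind
    have := h1.finite
    exact Set.toFinite b0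
  obtain ⟨b, hb⟩ : ∃ b : Finset R, (b : Set R) = b0 := ⟨hfin.toFinset, hfin.coe_toFinset⟩
  rw [← hb] at hspan hind
  have hbi : LinearIndependent L (fun i : b => v i) := hind
  have h1 : Submodule.span L (Set.range v) = Submodule.span L (Set.range fun i : b => v i) := by
    apply le_antisymm
    · rw [Submodule.span_le]
      rintro _ ⟨i, rfl⟩
      have h2 := hspan ⟨i, Set.mem_univ _, rfl⟩
      rwa [Set.image_eq_range] at h2
    · rw [Submodule.span_le]
      rintro _ ⟨i, rfl⟩
      exact Submodule.subset_span ⟨i.1, rfl⟩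
  rw [h1, finrank_span_eq_card hbi, Fintype.card_coe]
  obtain ⟨τ, hτ⟩ := exists_minor _ hbi
  refine le_trans ?_ h
  have h2 : (Matrix.of fun (i j : b) => φ (v i (τ j))).det ≠ 0 := by
    have h3 := RingHom.map_det φ (Matrix.of fun (i j : b) => v i (τ j))
    have h4 : φ.mapMatrix (Matrix.of fun (i j : b) => v i (τ j)) =
        Matrix.of fun (i j : b) => φ (v i (τ j)) := rfl
    rw [h4] at h3
    rw [← h3, Ne, map_eq_zero]
    exact hτ
  have h3 := Matrix.linearIndependent_rows_of_det_ne_zero h2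
  obtain ⟨π, hπ⟩ : ∃ π : (Fin N → L') →ₗ[L'] (b → L'), ∀ z j, π z j = z (τ j) :=
    ⟨{ toFun := fun z j => z (τ j)
       map_add' := fun _ _ => rfl
       map_smul' := fun _ _ => rfl }, fun _ _ => rfl⟩
  have h4 : LinearIndependent L' fun i : b => (fun j => φ (v i j) : Fin N → L') := by
    refine LinearIndependent.of_comp π ?_
    have h5 : (⇑π ∘ fun i : b => (fun j => φ (v i j) : Fin N → L')) =
        (Matrix.of fun (i j : b) => φ (v i (τ j))).row := by
      funext i j
      rw [Function.comp_apply, hπ]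
      rfl
    rw [h5]
    exact h3
  have h5 : Submodule.span L' (Set.range fun i : b => (fun j => φ (v i j) : Fin N → L')) ≤
      Submodule.span L' (Set.range fun i j => φ (v i j)) := by
    refine Submodule.span_mono ?_
    rintro _ ⟨i, rfl⟩
    exact ⟨i.1, rfl⟩
  have h6 := Submodule.finrank_mono h5
  rwa [finrank_span_eq_card h4, Fintype.card_coe] at h6

end pd

end Pool.Agent.V7H43.GU
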