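import Pool.Agent.V7H76.MP.Ineq

/-!
Choice of the tangent vector fields, if functionals are given that are dual to the derivatives, and
the height inequality.
-/

set_option autoImplicit false

open MvPolynomial FF Pool.Agent.W603.LV Pool.Agent.W603.PV Pool.Agent.TH145.GH
open Pool.Agent.TH145.GC (Ev dF_sub det_row_zero det_scale_gen ord_prod ge_det exists_minor)
open Pool.Agent.TH145.GE (ev dF_ev)
open Pool.Agent.V7H76.MP

namespace Pool.Agent.V7H43.GU

section rows

variable {K : Type} [Field K] {n : ℕ} {A X ι : Type} [DecidableEq ι] [Fintype ι]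
  {g : Fin (n + 1) → ι} {dg : A → ι → ℕ} {D : A → (Fin (n + 1) →₀ ℕ) → Derivation ℤ K K}
  {E : X → Derivation ℤ K K}

open scoped Classical in
/-- The functionals vanish on the position vectors and on the vertical vector fields, and are dual
to the derivatives. -/
structure Fun (g : Fin (n + 1) → ι) (dg : A → ι → ℕ)
    (D : A → (Fin (n + 1) →₀ ℕ) → Derivation ℤ K K) (E : X → Derivation ℤ K K)
    (x : Fin (n + 1) → K) (Φ : A → (Fin (n + 1) → K) →ₗ[K] K) : Prop where
  pos : ∀ c i, Φ c (bl g i x) = 0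
  ver : ∀ c ξ, Φ c (ev (E ξ) x) = 0
  dual : ∀ a c J, mdeg g J = dg a → Φ c (Ev D x a J) = -if a = c then mon x J else 0

omit [Fintype ι] in
theorem Fun.tang {x : Fin (n + 1) → K} {Φ : A → (Fin (n + 1) → K) →ₗ[K] K}
    (hΦ : Fun g dg D E x Φ) (c : A) (t : Ti n A) : Φ c (tv g dg D x t) = 0 := by
  classical
  by_cases ht : Ok g dg t
  · rw [tv, if_pos ht, map_sub, map_smul, map_smul, hΦ.dual t.1 c _ (by
      rw [mdeg_add, mdeg_single, ht.2]), hΦ.dual t.1 c _ (by
      rw [mdeg_add, mdeg_single, ← ht.1, ht.2]), mon_add, mon_add, mon_single, mon_single,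
      smul_eq_mul, smul_eq_mul]
    split_ifs <;> ring
  · rw [tv, if_neg ht, map_zero]

/-- The choice of the rows. -/
theorem exists_rowsW [Fintype A] {x : Fin (n + 1) → K} {Φ : A → (Fin (n + 1) → K) →ₗ[K] K}
    (hΦ : Fun g dg D E x Φ) {e : ι → Fin (n + 1)}
    (hge : ∀ i, g (e i) = i) (he : ∀ i, x (e i) ≠ 0)
    (hs0 : LinearIndepOn K (vv g dg D E x (base dg e)) (Vert ι X n A)) :
    ∃ b : Finset (Ix ι X n A ⊕ A), (∀ i ∈ Vert ι X n A, i ∈ b) ∧ (∀ a, Sum.inr a ∈ b) ∧
      LinearIndependent K (fun i : b => vv g dg D E x (base dg e) i) ∧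
      (Submodule.span K (Set.range (wv g dg D E x)) ≤
        Submodule.span K (wv g dg D E x '' {o | Sum.inl o ∈ b})) ∧
      Module.finrank K (Full g dg D E x) = b.card := by
  classical
  obtain ⟨v, hv⟩ : ∃ v, v = vv g dg D E x (base dg e) := ⟨_, rfl⟩
  have hdeg : ∀ a, mdeg g (base dg e a) = dg a := fun a => mdeg_base g dg hge a
  obtain ⟨B, hB⟩ : ∃ B : A → K, ∀ a, B a = mon x (base dg e a) := ⟨_, fun _ => rfl⟩
  have hB0 : ∀ a, B a ≠ 0 := fun a => by
    rw [hB, mon_base]
    exact Finset.prod_ne_zero_iff.2 fun i _ => pow_ne_zero _ (he i)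
  rw [← hv] at hs0
  obtain ⟨b0, hb0, hs0b, hspan0, hb0i⟩ := exists_linearIndepOn_extension hs0
    (t := Set.range Sum.inl) (by
      rintro _ (⟨i, rfl⟩ | ⟨ξ, rfl⟩)
      · exact ⟨_, rfl⟩
      · exact ⟨_, rfl⟩)
  -- the functionals
  obtain ⟨Φ', hΦ'⟩ : ∃ Φ' : (Fin (n + 1) → K) →ₗ[K] (A → K), ∀ z c, Φ' z c = Φ c z :=
    ⟨LinearMap.pi Φ, fun _ _ => rfl⟩
  have hΦw : ∀ z ∈ Submodule.span K (Set.range (wv g dg D E x)), Φ' z = 0 := by
    intro z hz
    have h1 : Submodule.span K (Set.range (wv g dg D E x)) ≤ LinearMap.ker Φ' := by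
      rw [Submodule.span_le]
      rintro _ ⟨o, rfl⟩
      rw [SetLike.mem_coe, LinearMap.mem_ker]
      funext c
      rw [hΦ', Pi.zero_apply]
      rcases o with i | ξ | t
      · exact hΦ.pos c i
      · exact hΦ.ver c ξ
      · exact hΦ.tang c t
    exact h1 hz
  have hΦE : ∀ a c, Φ' (v (Sum.inr a)) c = if a = c then -(B a) else 0 := by
    intro a c
    rw [hΦ', hv]
    simp only [vv]
    rw [hΦ.dual a c _ (hdeg a), ← hB]
    split_ifs
    · rfl
    · rw [neg_zero]
  have hΦsum : ∀ r : A → K, Φ' (∑ a, r a • v (Sum.inr a)) = fun c => -(r c * B c) := by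
    intro r
    rw [map_sum]
    funext c
    rw [Finset.sum_apply, Finset.sum_eq_single c]
    · rw [map_smul, Pi.smul_apply, hΦE c c, if_pos rfl, smul_eq_mul]
      ring
    · intro a _ hac
      rw [map_smul, Pi.smul_apply, hΦE a c, if_neg hac, smul_zero]
    · intro h; exact absurd (Finset.mem_univ c) h
  have hCi : LinearIndependent K (fun a => v (Sum.inr a)) := by
    rw [Fintype.linearIndependent_iff]
    intro r hr a
    have h2 := hΦsum r
    rw [hr, map_zero] at h2
    have h3 := congrFun h2 a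
    have h4 : r a * B a = 0 := by
      have h5 : (0 : K) = -(r a * B a) := h3
      rw [← neg_eq_zero]; exact h5.symm
    exact (mul_eq_zero.1 h4).resolve_right (hB0 a)
  have hCind : LinearIndepOn K v (Set.range Sum.inr) := by
    have h2 : LinearIndepOn K (v ∘ Sum.inr) (Set.univ : Set A) := by
      rw [linearIndepOn_univ_iff]
      exact hCi
    have h3 := LinearIndepOn.image_of_comp _ _ h2
    rwa [Set.image_univ] at h3
  have hdisj : Disjoint (Submodule.span K (v '' b0))
      (Submodule.span K (v '' (Set.range Sum.inr))) := by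
    rw [Submodule.disjoint_def]
    intro z hz1 hz2
    have h1 : Φ' z = 0 := by
      apply hΦw
      refine (Submodule.span_le.2 ?_) hz1
      rintro _ ⟨i, hi, rfl⟩
      obtain ⟨o, rfl⟩ := hb0 hi
      rw [hv]
      exact Submodule.subset_span ⟨o, rfl⟩
    have h2 : v '' (Set.range Sum.inr) = Set.range fun a : A => v (Sum.inr a) := by
      rw [← Set.range_comp]
      rfl
    rw [h2, Submodule.mem_span_range_iff_exists_fun] at hz2
    obtain ⟨r, rfl⟩ := hz2
    rw [hΦsum] at h1
    refine Finset.sum_eq_zero fun a _ => ?_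
    have h3 := congrFun h1 a
    have h4 : r a * B a = 0 := by
      have h5 : -(r a * B a) = 0 := h3
      rwa [neg_eq_zero] at h5
    rw [(mul_eq_zero.1 h4).resolve_right (hB0 a), zero_smul]
  obtain ⟨b1, -, hb1, hspan1, hb1i⟩ := exists_linearIndepOn_extension (hb0i.union hCind hdisj)
    (Set.subset_univ _)
  have hb1i' : LinearIndependent K (fun i : b1 => v i) := hb1i
  have hfin : b1.Finite := by
    have := hb1i'.finite
    exact Set.toFinite b1
  obtain ⟨b, hb⟩ : ∃ b : Finset (Ix ι X n A ⊕ A), (b : Set _) = b1 :=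
    ⟨hfin.toFinset, hfin.coe_toFinset⟩
  have hbm : ∀ i, i ∈ b ↔ i ∈ b1 := fun i => by rw [← hb, Finset.mem_coe]
  have hbi : LinearIndependent K (fun i : b => v i) := by
    have h1 : LinearIndepOn K v (b : Set _) := by rw [hb]; exact hb1i
    exact h1
  refine ⟨b, ?_, fun a => ?_, ?_, ?_, ?_⟩
  · intro i hi
    rw [hbm]; exact hb1 (Or.inl (hs0b hi))
  · rw [hbm]; exact hb1 (Or.inr ⟨a, rfl⟩)
  · rw [← hv]; exact hbi
  · rw [Submodule.span_le]
    rintro _ ⟨o, rfl⟩
    have h1 := hspan0 ⟨Sum.inl o, ⟨o, rfl⟩, rfl⟩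
    have h2 : v (Sum.inl o) = wv g dg D E x o := by rw [hv]; rfl
    rw [h2] at h1
    refine Submodule.span_mono ?_ h1
    rintro _ ⟨i, hi, rfl⟩
    obtain ⟨o', rfl⟩ := hb0 hi
    refine ⟨o', ?_, by rw [hv]; rfl⟩
    rw [Set.mem_ofPred_eq, hbm]
    exact hb1 (Or.inl hi)
  · have h1 : Full g dg D E x = Submodule.span K (Set.range fun i : b => v i) := by
      apply le_antisymm
      · have h2 : ∀ i, v i ∈ Submodule.span K (Set.range fun i : b => v i) := by
          intro i
          have h3 := hspan1 ⟨i, Set.mem_univ _, rfl⟩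
          rw [← hb, Set.image_eq_range] at h3
          exact h3
        have h3 : ∀ o, wv g dg D E x o ∈ Submodule.span K (Set.range fun i : b => v i) := by
          intro o
          have := h2 (Sum.inl o)
          rwa [hv] at this ⊢
        rw [Full, Submodule.span_le]
        rintro _ (⟨o, rfl⟩ | ⟨a, I, hI, rfl⟩)
        · exact h3 o
        · have h4 := Ev_mod dg D E x hge he a _ I hI rfl
          have h5 : Submodule.span K (Set.range (wv g dg D E x)) ≤
              Submodule.span K (Set.range fun i : b => v i) := by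
            rw [Submodule.span_le]
            rintro _ ⟨o, rfl⟩
            exact h3 o
          have h6 : Ev D x a (base dg e a) ∈
              Submodule.span K (Set.range fun i : b => v i) := by
            have := h2 (Sum.inr a)
            rwa [hv] at this ⊢
          have h7 := add_mem (h5 h4) (Submodule.smul_mem _ (mon x I / mon x (base dg e a)) h6)
          rwa [sub_add_cancel] at h7
      · rw [Submodule.span_le]
        rintro _ ⟨i, rfl⟩
        rw [hv]
        exact vv_mem_full x hdeg i.1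
    rw [h1, finrank_span_eq_card hbi, Fintype.card_coe]

end rows

section ineq

variable {k K : Type} [Field k] [Field K] [Algebra k K] {n : ℕ} {A ι : Type} [DecidableEq ι]
    {g : Fin (n + 1) → ι}
    {F : A → MvPolynomial (Fin (n + 1)) K} {dg : A → ι → ℕ}
    {D : A → (Fin (n + 1) →₀ ℕ) → Derivation ℤ K K} {e : Place k K → ℤ}

variable [IsAlgClosed k] [CharZero k] [IsFF k K]

/-- The height inequality. -/
theorem ineqW [Fintype ι] (hdat : Data k g F dg D e) {B : Type} [Fintype B] (β : B → A)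
    {m : ℕ} {μ : ι → ℕ}
    (hdim : ∀ i, m + μ i + 2 ≤ ∑ a, dg (β a) i + Fintype.card B)
    {x : Fin (n + 1) → K} (hx0 : ∀ i, ∃ s, g s = i ∧ x s ≠ 0)
    (hrk : Module.finrank K (Full g (dg ∘ β) (D ∘ β) (noE K) x) ≤ m + Fintype.card ι)
    (hblk : ∀ i, Module.finrank K ((Full g (dg ∘ β) (D ∘ β) (noE K) x).map (blkL K g i)) ≤
      μ i + 1)
    {Φ : B → (Fin (n + 1) → K) →ₗ[K] K} (hΦ : Fun g (dg ∘ β) (D ∘ β) (noE K) x Φ) (i0 : ι) :
    pht k (bl g i0 x) ≤ ∑ᶠ P, (n + 1) * e P := by
  classical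
  choose e0 hge he using hx0
  obtain ⟨dg', hdg'⟩ : ∃ dg' : B → ι → ℕ, dg' = dg ∘ β := ⟨_, rfl⟩
  obtain ⟨D', hD'⟩ : ∃ D' : B → (Fin (n + 1) →₀ ℕ) → Derivation ℤ K K, D' = D ∘ β := ⟨_, rfl⟩
  have hge_vv : ∀ (P : Place k K) {x : Fin (n + 1) → K}, (∀ l, Ge P 0 (x l)) →
      ∀ {I : B → Fin (n + 1) →₀ ℕ}, (∀ a, mdeg g (I a) = dg' a) →
      ∀ (r : Ix ι Empty n B ⊕ B) (l : Fin (n + 1)),
        Ge P (-e P) (vv g dg' D' (noE K) x I r l) := by
    intro P x hx I hI r l
    have he := hdat.e_nonneg P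
    have hl : ∀ (f : K), Ge P 0 f → ∀ a, ∀ I : Fin (n + 1) →₀ ℕ, mdeg g I = dg' a →
        Ge P (-e P) (D' a I f) := fun f hf a I hI => by
      rw [hdg'] at hI
      rw [hD']
      exact hdat.loss P f hf (β a) I hI
    rcases r with (i | ξ | t) | a
    · simp only [vv, wv, bl]
      split_ifs
      · exact (hx l).mono (by omega)
      · exact Ge.zero
    · exact ξ.elim
    · simp only [vv, wv, tv]
      split_ifs with ht
      · refine Ge.mono (by omega : -e P ≤ 0 + -e P) (Ge.sub ?_ ?_)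
        · exact (hx _).mul (hl _ (hx l) _ _ (by rw [mdeg_add, mdeg_single, ht.2]))
        · exact (hx _).mul (hl _ (hx l) _ _ (by
            rw [mdeg_add, mdeg_single, ← ht.1, ht.2]))
      · exact Ge.zero
    · exact hl _ (hx l) a _ (hI a)
  rw [← hdg', ← hD'] at hrk hblk hΦ
  have hdim' : ∀ i, m + μ i + 2 ≤ ∑ a, dg' a i + Fintype.card B := fun i => by
    rw [hdg']
    exact hdim i
  obtain ⟨b, hbV, hbC, hbi, hspan, hcard⟩ := exists_rowsW hΦ hge he (indep_pos hge he _)
  obtain ⟨τ, hτ⟩ := exists_minor _ hbi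
  have hdet : (mx g dg' D' (noE K) x (base dg' e0) b τ).det ≠ 0 := by
    unfold mx
    convert hτ
  have hbp : ∀ i, Sum.inl (Sum.inl i) ∈ b := fun i => hbV _ (Or.inl ⟨i, rfl⟩)
  have htot : ∀ i, tot Empty g b τ i + 1 ≤ ∑ a, dg' a i := by
    intro i
    have h1 := tot_le (fun a => mdeg_base g dg' hge a) τ hbC hbV hdet (hcard ▸ hrk) i (hblk i)
    have h2 := hdim' i
    rw [Fintype.card_eq_zero (α := Empty)] at h1
    omega
  have hbn : b.card ≤ n + 1 := by
    rw [← hcard]
    have := Submodule.finrank_le (Full g dg' D' (noE K) x)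
    rwa [Module.finrank_fin_fun] at this
  refine sum_localM (k := k) (g := g) (x := x) (Θ := (mx g dg' D' (noE K) x (base dg' e0) b τ).det /
    ∏ a, mon x (base dg' e0 a)) (a := fun i => (∑ a, dg' a i : ℕ) - (tot Empty g b τ i : ℤ))
    (fun i h0 => bl_ne (hge i) (he i) (congrFun h0 _)) (fun i => ?_) ?_ (fun P => ?_) i0
  · have := htot i
    omega
  · refine hdat.fin.subset fun P hP => ?_
    intro h0
    apply hP
    rw [h0, mul_zero]
  · have h1 := ord_theta P hge he τ hbC hbp hspan hdet (B := -((n + 1) * e P))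
      (fun x' e1 hx' hge1 hdet' => by
        have h1 := (ge_det P (mx g dg' D' (noE K) x' (base dg' e1) b τ) (c := e P)
          fun r j => hge_vv P hx' (fun a => mdeg_base g dg' hge1 a) _ _).resolve_left hdet'
        rw [Fintype.card_coe] at h1
        have h2 : (b.card : ℤ) * e P ≤ (n + 1) * e P :=
          mul_le_mul_of_nonneg_right (by exact_mod_cast hbn) (hdat.e_nonneg P)
        linarith)
    simp only [neg_sub]
    rw [sub_eq_add_neg]
    exact h1

end ineq

end Pool.Agent.V7H43.GU
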